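import Pool.Agent.Q120.ME.General

/-!
# Random sets near models with independent elements and logarithmic mass

`U` is a set of integers, the model contains each `n ∈ U` independently with probability `q n`, and the expected number of elements below `x`
is asymptotic to `c log x`. (The proofs are those of helper83 for the exponents of the repunit primes, with general `U`, `q`, `c`.)
-/

set_option autoImplicit false

namespace Pool.Agent.Q172.PP

open Finset MeasureTheory Filter Pool.Agent.Q120.ET Pool.Agent.Q120.ME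
open scoped Topology

/-- Models with the mass `c log x`. -/
structure Dat (U : Set ℕ) (q : ℕ → ℝ) (c : ℝ) : Prop where
  rates : Rates U q
  cpos : 0 < c
  lim : Tendsto (fun x : ℕ => mass U q x / Real.log x) atTop (𝓝 c)

/-- The class `δ`: `D(x) ≤ (δ + o(1)) log x`. -/
def ClsL (U : Set ℕ) (q : ℕ → ℝ) (δ : ℝ) {Ω : Type*} [MeasurableSpace Ω] (μ : Measure Ω) (A : Ω → Set ℕ) : Prop :=
  IsRandomSet A ∧ ∀ ε : ℝ, 0 < ε → ∀ᶠ x : ℕ in atTop, relEnt q μ A (ind U x) ≤ (δ + ε) * Real.log x

variable {U : Set ℕ} {q : ℕ → ℝ} {c : ℝ}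

theorem log_tendsto : Tendsto (fun x : ℕ => Real.log x) atTop atTop := Real.tendsto_log_atTop.comp tendsto_natCast_atTop_atTop


/-- `mass` and `log`. -/
theorem mass_bounds (R : Dat U q c) (J : MEJobs) {η : ℝ} (hη : 0 < η) : ∀ᶠ x : ℕ in atTop,
    (1 - η) * (c * Real.log x) ≤ mass U q x ∧ mass U q x ≤ (1 + η) * (c * Real.log x) := by
  have h1 := R.lim
  have hc := R.cpos
  filter_upwards [h1.eventually (eventually_gt_nhds (show (1 - η) * c < c by nlinarith)),
    h1.eventually (eventually_lt_nhds (show c < (1 + η) * c by nlinarith)), log_tendsto.eventually_gt_atTop 0] with x h2 h3 h4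
  rw [lt_div_iff₀ h4] at h2
  rw [div_lt_iff₀ h4] at h3
  constructor <;> nlinarith


/-- The limits with respect to `mass` and to `log`. -/
theorem tendsto_iff (R : Dat U q c) (J : MEJobs) (f : ℕ → ℝ) (l : ℝ) :
    Tendsto (fun x : ℕ => f x / mass U q x) atTop (𝓝 l) ↔ Tendsto (fun x : ℕ => f x / Real.log x) atTop (𝓝 (c * l)) := by
  have h1 := R.lim
  have hc := R.cpos
  have h2 : ∀ᶠ x : ℕ in atTop, 0 < mass U q x := R.rates.div.eventually_gt_atTop 0
  have h3 : ∀ᶠ x : ℕ in atTop, 0 < Real.log x := log_tendsto.eventually_gt_atTop 0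
  constructor
  · intro h
    refine (h1.mul h).congr' ?_
    filter_upwards [h2, h3] with x h4 h5
    field_simp
  · intro h
    have h4 : Tendsto (fun x : ℕ => f x / Real.log x * (mass U q x / Real.log x)⁻¹) atTop (𝓝 (c * l * c⁻¹)) :=
      h.mul (h1.inv₀ hc.ne')
    rw [show c * l * c⁻¹ = l by field_simp] at h4
    refine h4.congr' ?_
    filter_upwards [h2, h3] with x h4 h5
    field_simp


/-- The classes with respect to `mass` and to `log`. -/
theorem cls_iff (R : Dat U q c) (J : MEJobs) {δ : ℝ} (hδ : 0 ≤ δ) {f : ℕ → ℝ} :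
    (∀ ε : ℝ, 0 < ε → ∀ᶠ x : ℕ in atTop, f x ≤ (δ / c + ε) * mass U q x) ↔
      ∀ ε : ℝ, 0 < ε → ∀ᶠ x : ℕ in atTop, f x ≤ (δ + ε) * Real.log x := by
  have hc := R.cpos
  constructor
  · intro h ε hε
    obtain ⟨ε', hε'⟩ : ∃ ε' : ℝ, ε' = ε / (2 * c) := ⟨_, rfl⟩
    have h1 : 0 < ε' := by
      rw [hε']
      positivity
    obtain ⟨η, hη⟩ : ∃ η : ℝ, η = ε / (2 * (δ + ε)) := ⟨_, rfl⟩
    have hδε : 0 < δ + ε := by linarith
    have h2 : 0 < η := by
      rw [hη]
      positivity
    filter_upwards [h ε' h1, mass_bounds R J h2, log_tendsto.eventually_gt_atTop 0] with x h3 h4 h5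
    refine h3.trans ?_
    have h6 : 0 ≤ δ / c + ε' := by positivity
    refine (mul_le_mul_of_nonneg_left h4.2 h6).trans ?_
    have h7 : (δ / c + ε') * ((1 + η) * (c * Real.log x)) = ((δ + ε / 2) * (1 + η)) * Real.log x := by
      rw [hε']
      field_simp
    rw [h7]
    apply mul_le_mul_of_nonneg_right _ h5.le
    have h8 : (δ + ε / 2) * η ≤ ε / 2 := by
      rw [hη, mul_div_assoc', div_le_iff₀ (by positivity)]
      nlinarith
    linarith
  · intro h ε hε
    obtain ⟨ε', hε'⟩ : ∃ ε' : ℝ, ε' = ε * c / 2 := ⟨_, rfl⟩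
    have h1 : 0 < ε' := by
      rw [hε']
      positivity
    have hd : 0 < δ / c + ε := by positivity
    obtain ⟨η, hη⟩ : ∃ η : ℝ, η = ε / 2 / (δ / c + ε) := ⟨_, rfl⟩
    have h2 : 0 < η := by
      rw [hη]
      positivity
    filter_upwards [h ε' h1, mass_bounds R J h2, log_tendsto.eventually_gt_atTop 0] with x h3 h4 h5
    refine h3.trans ?_
    refine le_trans ?_ (mul_le_mul_of_nonneg_left h4.1 hd.le)
    have h7 : (δ / c + ε) * ((1 - η) * (c * Real.log x)) = ((δ / c + ε) - (δ / c + ε) * η) * c * Real.log x := by ring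
    rw [h7]
    apply mul_le_mul_of_nonneg_right _ h5.le
    have h8 : (δ / c + ε) * η = ε / 2 := by
      rw [hη]
      field_simp
    rw [h8, hε']
    have h9 : (δ / c + ε - ε / 2) * c = δ + ε * c / 2 := by
      field_simp
      ring
    rw [h9]


open Classical in
/-- The conditions of convergence. -/
theorem conv_iff (R : Dat U q c) (J : MEJobs) {d : ℕ → ℝ} (hd : ∀ n, 0 ≤ d n) :
    Conv U q d ↔ Summable (fun n : ℕ => if n ∈ U then q n * d n / Real.log n ^ 2 else 0) := by
  have hc := R.cpos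
  have hmb := mass_bounds R J (show (0 : ℝ) < 1 / 2 by norm_num)
  unfold Conv
  have key : ∀ᶠ n : ℕ in atTop, n ∈ U → q n * d n / mass U q n ^ 2 ≤ 4 / c ^ 2 * (q n * d n / Real.log n ^ 2) ∧
      q n * d n / Real.log n ^ 2 ≤ 9 * c ^ 2 / 4 * (q n * d n / mass U q n ^ 2) := by
    filter_upwards [hmb, log_tendsto.eventually_gt_atTop 0] with n h1 h3 hU
    have hm : 0 < mass U q n := by
      have : 0 < c * Real.log n := by positivity
      nlinarith [h1.1]
    have h5 := hd n
    have hq := R.rates.pos n hU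
    have h6 : (1 / 2 * (c * Real.log n)) ^ 2 ≤ mass U q n ^ 2 := by
      apply pow_le_pow_left₀ (by positivity)
      linarith [h1.1]
    have h7 : mass U q n ^ 2 ≤ (3 / 2 * (c * Real.log n)) ^ 2 := by
      apply pow_le_pow_left₀ hm.le
      linarith [h1.2]
    constructor
    · calc q n * d n / mass U q n ^ 2
          ≤ q n * d n / (1 / 2 * (c * Real.log n)) ^ 2 :=
            div_le_div_of_nonneg_left (by positivity) (by positivity) h6
        _ = 4 / c ^ 2 * (q n * d n / Real.log n ^ 2) := by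
            field_simp
            ring
    · calc q n * d n / Real.log n ^ 2 = 9 * c ^ 2 / 4 * (q n * d n / (3 / 2 * (c * Real.log n)) ^ 2) := by
            field_simp
            ring
        _ ≤ 9 * c ^ 2 / 4 * (q n * d n / mass U q n ^ 2) := by
            apply mul_le_mul_of_nonneg_left _ (by positivity)
            exact div_le_div_of_nonneg_left (by positivity) (by positivity) h7
  constructor
  · intro h
    refine Summable.of_norm_bounded_eventually_nat (h.mul_left (9 * c ^ 2 / 4)) ?_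
    filter_upwards [key, log_tendsto.eventually_gt_atTop 0] with n h1 h2
    by_cases hp : n ∈ U
    · have h3 := R.rates.pos n hp
      have h4 := hd n
      rw [if_pos hp, if_pos hp, Real.norm_eq_abs, abs_of_nonneg (by positivity)]
      exact (h1 hp).2
    · rw [if_neg hp, if_neg hp, norm_zero, mul_zero]
  · intro h
    refine Summable.of_norm_bounded_eventually_nat (h.mul_left (4 / c ^ 2)) ?_
    filter_upwards [key, log_tendsto.eventually_gt_atTop 0] with n h1 h2
    by_cases hp : n ∈ U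
    · have h3 := R.rates.pos n hp
      have h4 := hd n
      rw [if_pos hp, if_pos hp, Real.norm_eq_abs, abs_of_nonneg (by positivity)]
      exact (h1 hp).1
    · rw [if_neg hp, if_neg hp, norm_zero, mul_zero]

open Classical in
/-- **(1)** -/
theorem law_iff (R : Dat U q c) (J : MEJobs) {d : ℕ → ℝ} (hm : Monotone d) (hd : ∀ n, 0 ≤ d n) :
    (∀ (Ω : Type) [MeasurableSpace Ω] (μ : Measure Ω) [IsProbabilityMeasure μ] (A : Ω → Set ℕ), IsRandomSet A →
      (∀ᶠ x : ℕ in atTop, relEnt q μ A (ind U x) ≤ d x) → ∀ᵐ ω ∂μ, Tendsto (fun x : ℕ => (cnt U (A ω) x : ℝ) / Real.log x) atTop (𝓝 c)) ↔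
    Summable (fun n : ℕ => if n ∈ U then q n * d n / Real.log n ^ 2 else 0) := by
  rw [← conv_iff R J hd]
  constructor
  · intro h
    by_contra hns
    obtain ⟨Ω, m, μ, hμ, A, hA, h1, h2⟩ := J.asl U q d R.rates hm hd hns
    obtain ⟨ω, h3, h4⟩ := ((h Ω μ A hA h1).and h2).exists
    apply h4
    rw [tendsto_iff R J, mul_one]
    exact h3
  · intro h Ω _ μ _ A hA hD
    filter_upwards [J.asu U q d R.rates hm hd h Ω μ A hA hD] with ω hω
    have h1 := (tendsto_iff R J _ _).1 hω
    rwa [mul_one] at h1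


theorem scale (R : Dat U q c) (u : ℝ) : u * Real.log (u / c) - u + c = c * hfun (u / c) := by
  unfold hfun
  have := R.cpos
  field_simp


theorem lint_scale (R : Dat U q c) (ν : Measure ℝ) (δ : ℝ) (hδ : 0 ≤ δ) :
    ∫⁻ u, ENNReal.ofReal (u * Real.log (u / c) - u + c) ∂ν ≤ ENNReal.ofReal δ ↔
      ∫⁻ u, ENNReal.ofReal (hfun u) ∂(ν.map (fun u => u / c)) ≤ ENNReal.ofReal (δ / c) := by
  have hc := R.cpos
  have hmeas : Measurable (fun u : ℝ => ENNReal.ofReal (hfun u)) := by
    unfold hfun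
    fun_prop
  rw [lintegral_map hmeas (by fun_prop)]
  have h1 : (fun u : ℝ => ENNReal.ofReal (u * Real.log (u / c) - u + c)) =
      fun u => ENNReal.ofReal c * ENNReal.ofReal (hfun (u / c)) := by
    funext u
    rw [scale R, ENNReal.ofReal_mul hc.le]
  have hmeas2 : Measurable (fun u : ℝ => ENNReal.ofReal (hfun (u / c))) := hmeas.comp (measurable_id.div_const c)
  rw [h1, lintegral_const_mul _ hmeas2, ENNReal.ofReal_div_of_pos hc,
    ENNReal.le_div_iff_mul_le (Or.inl (by simpa using hc)) (Or.inl ENNReal.ofReal_ne_top), mul_comm]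


/-- **(2)** -/
theorem laws_iff (R : Dat U q c) (J : MEJobs) {δ : ℝ} (hδ : 0 ≤ δ) (ν : Measure ℝ) [IsProbabilityMeasure ν] :
    (∃ (Ω : Type) (_ : MeasurableSpace Ω) (μ : Measure Ω) (_ : IsProbabilityMeasure μ) (A : Ω → Set ℕ) (L : Ω → ℝ), ClsL U q δ μ A ∧
      Measurable L ∧ μ.map L = ν ∧ ∀ᵐ ω ∂μ, Tendsto (fun x : ℕ => (cnt U (A ω) x : ℝ) / Real.log x) atTop (𝓝 (L ω))) ↔
    ν (Set.Iio 0) = 0 ∧ ∫⁻ u, ENNReal.ofReal (u * Real.log (u / c) - u + c) ∂ν ≤ ENNReal.ofReal δ := by
  have hc := R.cpos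
  constructor
  · rintro ⟨Ω, m, μ, hμ, A, L, ⟨hA, hcls⟩, hL, hmap, hlim⟩
    constructor
    · rw [← hmap, Measure.map_apply hL measurableSet_Iio]
      have h1 : ∀ᵐ ω ∂μ, 0 ≤ L ω := by
        filter_upwards [hlim] with ω hω
        refine ge_of_tendsto hω ?_
        filter_upwards [log_tendsto.eventually_gt_atTop 0] with x hx
        positivity
      rw [ae_iff] at h1
      exact measure_mono_null (fun ω hω => not_le.2 hω) h1
    · rw [lint_scale R ν δ hδ, ← hmap, Measure.map_map (by fun_prop) hL]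
      have h1 := J.upl U q (δ / c) R.rates (by positivity) Ω μ A hA ((cls_iff R J hδ).2 hcls) (fun ω => L ω / c)
        (hL.div_const _) (by
          filter_upwards [hlim] with ω hω
          rw [tendsto_iff R J, mul_div_cancel₀ _ hc.ne']
          exact hω)
      rw [lintegral_map (by
        unfold hfun
        fun_prop) (by fun_prop)]
      exact h1
  · rintro ⟨h0, h1⟩
    rw [lint_scale R ν δ hδ] at h1
    have : IsProbabilityMeasure (ν.map (fun u => u / c)) := Measure.isProbabilityMeasure_map (by fun_prop)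
    obtain ⟨Ω, m, μ, hμ, A, L, hA, hL, hmap, hcls, hlim, -⟩ := J.low U q (δ / c) R.rates (by positivity)
      (ν.map (fun u => u / c)) (by
        rw [Measure.map_apply (by fun_prop) measurableSet_Iio]
        refine measure_mono_null (fun u hu => ?_) h0
        have h2 : u / c < 0 := hu
        rw [div_lt_iff₀ hc, zero_mul] at h2
        exact h2) h1
    refine ⟨Ω, m, μ, hμ, A, fun ω => c * L ω, ⟨hA, (cls_iff R J hδ).1 hcls⟩, hL.const_mul _, ?_, ?_⟩
    · have h2 : μ.map (fun ω => c * L ω) = (μ.map L).map (fun v => c * v) := (Measure.map_map (by fun_prop) hL).symm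
      rw [h2, hmap, Measure.map_map (by fun_prop) (by fun_prop)]
      have h3 : (fun v => c * v) ∘ (fun u => u / c) = id := by
        funext u
        simp only [Function.comp, id]
        field_simp
      rw [h3, Measure.map_id]
    · filter_upwards [hlim] with ω hω
      exact (tendsto_iff R J _ _).1 hω


theorem finite_iff (U S : Set ℕ) : (S ∩ U).Finite ↔ ∃ N : ℕ, ∀ n ∈ S, n ∈ U → n < N := by
  constructor
  · intro h
    obtain ⟨N, hN⟩ := h.bddAbove
    exact ⟨N + 1, fun n h1 h2 => Nat.lt_succ_of_le (hN ⟨h1, h2⟩)⟩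
  · rintro ⟨N, hN⟩
    exact (Set.finite_lt_nat N).subset (fun n hn => hN n hn.1 hn.2)


/-- **(3)** -/
theorem fin_max (R : Dat U q c) (J : MEJobs) {δ : ℝ} (hδ : 0 ≤ δ) :
    (∀ (Ω : Type) [MeasurableSpace Ω] (μ : Measure Ω) [IsProbabilityMeasure μ] (A : Ω → Set ℕ), ClsL U q δ μ A →
      μ.real {ω | (A ω ∩ U).Finite} ≤ δ / c) ∧
    ∃ (Ω : Type) (_ : MeasurableSpace Ω) (μ : Measure Ω) (_ : IsProbabilityMeasure μ) (A : Ω → Set ℕ), ClsL U q δ μ A ∧
      μ.real {ω | (A ω ∩ U).Finite} = min 1 (δ / c) := by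
  have hc := R.cpos
  have hup : ∀ (Ω : Type) [MeasurableSpace Ω] (μ : Measure Ω) [IsProbabilityMeasure μ] (A : Ω → Set ℕ), ClsL U q δ μ A →
      μ.real {ω | (A ω ∩ U).Finite} ≤ δ / c := by
    intro Ω _ μ _ A hA
    simp only [finite_iff]
    exact J.fin U q (δ / c) R.rates (by positivity) Ω μ A hA.1 ((cls_iff R J hδ).2 hA.2)
  refine ⟨hup, ?_⟩
  obtain ⟨t, ht⟩ : ∃ t : ℝ, t = min 1 (δ / c) := ⟨_, rfl⟩
  have ht0 : 0 ≤ t := by
    rw [ht]
    exact le_min zero_le_one (by positivity)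
  have ht1 : t ≤ 1 := by
    rw [ht]
    exact min_le_left _ _
  have ht2 : t ≤ δ / c := by
    rw [ht]
    exact min_le_right _ _
  obtain ⟨ν, hν⟩ : ∃ ν : Measure ℝ, ν = ENNReal.ofReal t • Measure.dirac 0 + ENNReal.ofReal (1 - t) • Measure.dirac 1 := ⟨_, rfl⟩
  have : IsProbabilityMeasure ν := ⟨by
    rw [hν]
    simp only [Measure.coe_add, Measure.coe_smul, Pi.add_apply, Pi.smul_apply, measure_univ, smul_eq_mul, mul_one]
    rw [← ENNReal.ofReal_add ht0 (by linarith)]
    simp⟩
  obtain ⟨Ω, m, μ, hμ, A, L, hA, hL, hmap, hcls, hlim, hfin⟩ := J.low U q (δ / c) R.rates (by positivity) ν (by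
    rw [hν]
    simp) (by
    rw [hν, lintegral_add_measure, lintegral_smul_measure, lintegral_smul_measure, lintegral_dirac, lintegral_dirac]
    have h1 : hfun 0 = 1 := by simp [hfun]
    have h2 : hfun 1 = 0 := by simp [hfun]
    rw [h1, h2]
    simp only [ENNReal.ofReal_one, ENNReal.ofReal_zero, smul_eq_mul, mul_one, mul_zero, add_zero]
    exact ENNReal.ofReal_le_ofReal ht2)
  have hAc : ClsL U q δ μ A := ⟨hA, (cls_iff R J hδ).1 hcls⟩
  refine ⟨Ω, m, μ, hμ, A, hAc, le_antisymm (le_min ?_ (hup Ω μ A hAc)) ?_⟩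
  · exact measureReal_le_one
  · rw [← ht]
    have h1 : μ.real (L ⁻¹' {0}) = t := by
      rw [measureReal_def, ← Measure.map_apply hL (measurableSet_singleton 0), hmap, hν]
      simp [ht0]
    rw [← h1]
    refine ENNReal.toReal_mono (measure_ne_top _ _) (measure_mono_ae ?_)
    filter_upwards [hfin] with ω hω h2
    exact (finite_iff U (A ω)).2 (hω h2)



/-- The probability of finiteness, from the relative entropy along a sequence. -/
theorem fin_freq (R : Dat U q c) {t : ℝ} (Ω : Type) [MeasurableSpace Ω] (μ : Measure Ω) [IsProbabilityMeasure μ] (A : Ω → Set ℕ)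
    (hA : IsRandomSet A) (hD : ∀ ε : ℝ, 0 < ε → ∃ᶠ x : ℕ in atTop, relEnt q μ A (ind U x) ≤ (c * t + ε) * Real.log x) :
    μ.real {ω | (A ω ∩ U).Finite} ≤ t := by
  classical
  have hc := R.cpos
  have hEVT : J_EVT := Pool.Agent.Q184.ME.t_EVT Pool.Agent.Q26.ME.t_DV
  have hN : ∀ N : ℕ, μ.real {ω | ∀ n ∈ A ω, n ∈ U → n < N} ≤ t := by
    intro N
    by_contra hlt
    push Not at hlt
    obtain ⟨P, hP⟩ : ∃ P : ℝ, P = μ.real {ω | ∀ n ∈ A ω, n ∈ U → n < N} := ⟨_, rfl⟩
    rw [← hP] at hlt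
    have hP0 : 0 ≤ P := by
      rw [hP]
      exact measureReal_nonneg
    have hP1 : P ≤ 1 := by
      rw [hP]
      exact measureReal_le_one
    obtain ⟨ε, hε⟩ : ∃ ε : ℝ, ε = c * (P - t) / 4 := ⟨_, rfl⟩
    have hε0 : 0 < ε := by
      rw [hε]
      have : 0 < P - t := by linarith
      positivity
    obtain ⟨η, hη⟩ : ∃ η : ℝ, η = (P - t) / 4 := ⟨_, rfl⟩
    have hη0 : 0 < η := by
      rw [hη]
      linarith
    have hbig : ∀ᶠ x : ℕ in atTop, (P * mass U q N + Real.log 2) / ε < Real.log x :=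
      log_tendsto.eventually_gt_atTop _
    obtain ⟨x, hx1, hx2, hx3, hx4, hx5⟩ := ((hD ε hε0).and_eventually (hbig.and ((eventually_ge_atTop N).and
      ((mass_bounds R jobs hη0).and (log_tendsto.eventually_gt_atTop 0))))).exists
    have hF : ∀ n ∈ ind U x, 0 < q n ∧ q n < 1 := fun n hn =>
      ⟨R.rates.pos n (Pool.Agent.Q24.ME.mem_ind.1 hn).2, R.rates.lt_one n (Pool.Agent.Q24.ME.mem_ind.1 hn).2⟩
    have h1 := (hEVT q (ind U x) hF Ω μ A hA).2 (fun T => ∀ n ∈ T, n < N)
      (mass U q x - mass U q N) (by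
        rw [Pool.Agent.Q24.ME.sum_bern_below, ← Pool.Agent.Q24.ME.mass_sub U q hx3]
        exact Pool.Agent.Q24.ME.prod_below_le q _ N (fun n hn => (hF n hn).2))
    have h2 : P ≤ μ.real {ω | ∀ n ∈ tr A (ind U x) ω, n < N} := by
      rw [hP]
      refine measureReal_mono ?_
      intro ω hω n hn
      rw [mem_tr, Pool.Agent.Q24.ME.mem_ind] at hn
      exact hω n hn.2 hn.1.2
    have h3 : 0 ≤ mass U q x - mass U q N := by
      rw [← Pool.Agent.Q24.ME.mass_sub U q hx3]
      exact Finset.sum_nonneg (fun n hn => (hF n (mem_filter.1 hn).1).1.le)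
    have h4 : P * (mass U q x - mass U q N) ≤ (c * t + ε) * Real.log x + Real.log 2 := by
      have h5 := mul_le_mul_of_nonneg_right h2 h3
      linarith
    have h5 : P * mass U q N + Real.log 2 < ε * Real.log x := by
      rw [div_lt_iff₀ hε0] at hx2
      linarith
    have h6 : P * ((1 - η) * (c * Real.log x)) ≤ P * mass U q x := mul_le_mul_of_nonneg_left hx4.1 hP0
    have h7 : P * ((1 - η) * (c * Real.log x)) < (c * t + 2 * ε) * Real.log x := by linarith
    have h8 : P * (1 - η) * c < c * t + 2 * ε := by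
      have h9 : (P * (1 - η) * c) * Real.log x < (c * t + 2 * ε) * Real.log x := by linarith
      exact lt_of_mul_lt_mul_right h9 hx5.le
    have h9 : P * η ≤ η := by nlinarith
    have h10 : c * (P - P * η - t - (P - t) / 2) < 0 := by
      rw [hε] at h8
      linarith
    have h11 : P - P * η - t - (P - t) / 2 < 0 := by
      by_contra hge
      push Not at hge
      have := mul_nonneg hc.le hge
      linarith
    rw [hη] at h9
    rw [hη] at h11
    linarith
  simp only [finite_iff]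
  have h1 : {ω | ∃ N : ℕ, ∀ n ∈ A ω, n ∈ U → n < N} = ⋃ N : ℕ, {ω | ∀ n ∈ A ω, n ∈ U → n < N} := by
    ext ω
    simp
  have hmono : Monotone (fun N : ℕ => {ω | ∀ n ∈ A ω, n ∈ U → n < N}) := by
    intro N M hNM ω hω n hn hU
    exact lt_of_lt_of_le (hω n hn hU) hNM
  have h2 := tendsto_measure_iUnion_atTop (μ := μ) hmono
  have h3 : Tendsto (fun N : ℕ => μ.real {ω | ∀ n ∈ A ω, n ∈ U → n < N}) atTop
      (𝓝 (μ.real (⋃ N : ℕ, {ω | ∀ n ∈ A ω, n ∈ U → n < N}))) := by
    have := (ENNReal.tendsto_toReal (measure_ne_top μ (⋃ N : ℕ, {ω | ∀ n ∈ A ω, n ∈ U → n < N}))).comp h2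
    exact this
  rw [h1]
  exact le_of_tendsto' h3 hN


/-- **The exact information threshold for infinitude.** -/
theorem threshold (R : Dat U q c) (d : ℕ → ℝ) {t : ℝ} (ht : 0 ≤ t) (ht1 : t < 1) :
    (∀ (Ω : Type) [MeasurableSpace Ω] (μ : Measure Ω) [IsProbabilityMeasure μ] (A : Ω → Set ℕ), IsRandomSet A →
      (∀ᶠ x : ℕ in atTop, relEnt q μ A (ind U x) ≤ d x) → μ.real {ω | (A ω ∩ U).Finite} ≤ t) ↔
    ∀ ε : ℝ, 0 < ε → ∃ᶠ x : ℕ in atTop, d x ≤ (c * t + ε) * Real.log x := by
  have hc := R.cpos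
  constructor
  · intro h
    by_contra hne
    push Not at hne
    obtain ⟨ε, hε, hev⟩ := hne
    obtain ⟨s, hs⟩ : ∃ s : ℝ, s = min ((1 + t) / 2) (t + ε / (2 * c)) := ⟨_, rfl⟩
    have hε2 : 0 < ε / (2 * c) := by positivity
    have hts : t < s := by
      rw [hs]
      exact lt_min (by linarith) (by linarith)
    have hs1 : s < 1 := by
      rw [hs]
      exact (min_le_left _ _).trans_lt (by linarith)
    have hs2 : c * s ≤ c * t + ε / 2 := by
      have h1 : s ≤ t + ε / (2 * c) := by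
        rw [hs]
        exact min_le_right _ _
      have h2 := mul_le_mul_of_nonneg_left h1 hc.le
      have h3 : c * (t + ε / (2 * c)) = c * t + ε / 2 := by
        field_simp
      linarith
    have hs0 : 0 ≤ s := by linarith
    obtain ⟨-, Ω, m, μ, hμ, A, hA, hfin⟩ := fin_max R jobs (δ := c * s) (by positivity)
    have h1 : ∀ᶠ x : ℕ in atTop, relEnt q μ A (ind U x) ≤ d x := by
      filter_upwards [hA.2 (ε / 2) (by positivity), hev, log_tendsto.eventually_gt_atTop 0] with x h2 h3 h4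
      refine h2.trans (le_trans ?_ h3.le)
      apply mul_le_mul_of_nonneg_right _ h4.le
      linarith
    have h2 := h Ω μ A hA.1 h1
    rw [hfin, mul_div_cancel_left₀ _ hc.ne', min_eq_right hs1.le] at h2
    linarith
  · intro h Ω _ μ _ A hA hD
    refine fin_freq R Ω μ A hA (fun ε hε => ?_)
    exact ((h ε hε).and_eventually hD).mono (fun x hx => hx.2.trans hx.1)


end Pool.Agent.Q172.PP
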