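import Pool.Agent.Q172.PP.Gen

/-!
# Models on the odd numbers with probabilities asymptotic to `2 c / n`
-/

set_option autoImplicit false

namespace Pool.Agent.Q172.PP

open Finset MeasureTheory Filter Pool.Agent.Q120.ET Pool.Agent.Q120.ME
open scoped Topology

/-- Models of the indices: each odd `n` independently with probability `q n`, `0 < q n < 1`, `n q n → 2 c`. -/
structure OModel (c : ℝ) (q : ℕ → ℝ) : Prop where
  cpos : 0 < c
  pos : ∀ n, Odd n → 0 < q n
  lt_one : ∀ n, Odd n → q n < 1
  lim : ∀ ε : ℝ, 0 < ε → ∀ᶠ n : ℕ in atTop, Odd n → |(n : ℝ) * q n - 2 * c| ≤ ε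

/-- the sum of the reciprocals of the odd numbers below `x` -/
noncomputable def SO (x : ℕ) : ℝ := ∑ n ∈ ind {n | Odd n} x, 1 / (n : ℝ)

lemma mem_ind' {U : Set ℕ} {x n : ℕ} : n ∈ ind U x ↔ n < x ∧ n ∈ U := by
  classical
  unfold ind
  rw [mem_filter, mem_range]

lemma SO_succ (x : ℕ) : SO (x + 1) = SO x + if Odd x then 1 / (x : ℝ) else 0 := by
  classical
  unfold SO
  have h : ∀ y, ind {n | Odd n} y = (range y).filter (fun n => Odd n) := fun y => by
    ext n
    rw [mem_ind', mem_filter, mem_range]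
    rfl
  rw [h, h, range_add_one, filter_insert]
  split_ifs with h1
  · rw [sum_insert (by simp)]
    ring
  · ring

lemma SO_two (k : ℕ) : SO (2 * k) = (harmonic (2 * k) : ℝ) - (harmonic k : ℝ) / 2 := by
  induction k with
  | zero => simp [SO, ind]
  | succ k ih =>
    rw [show 2 * (k + 1) = 2 * k + 1 + 1 by ring, SO_succ, SO_succ, ih, harmonic_succ, harmonic_succ, harmonic_succ]
    rw [if_neg (by simp), if_pos (by simp)]
    push_cast
    have h1 : ((2 : ℝ) * k + 1) ≠ 0 := by positivity
    have h2 : ((k : ℝ) + 1) ≠ 0 := by positivity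
    have h3 : ((2 : ℝ) * k + 1 + 1) ≠ 0 := by positivity
    field_simp
    ring

lemma SO_eq (x : ℕ) : SO x = (harmonic (2 * (x / 2)) : ℝ) - (harmonic (x / 2) : ℝ) / 2 := by
  rcases Nat.even_or_odd' x with ⟨k, rfl | rfl⟩
  · rw [Nat.mul_div_cancel_left _ (by norm_num), SO_two]
  · rw [show (2 * k + 1) / 2 = k by omega, SO_succ, if_neg (by simp), add_zero, SO_two]

lemma SO_near {x : ℕ} (hx : 2 ≤ x) : |SO x - Real.log x / 2| ≤ 2 := by
  rw [SO_eq]
  obtain ⟨k, hk⟩ : ∃ k, k = x / 2 := ⟨_, rfl⟩
  rw [← hk]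
  have hk1 : 1 ≤ k := by omega
  have hk0 : (0 : ℝ) < k := by exact_mod_cast hk1
  have hx0 : (0 : ℝ) < x := by
    have : 0 < x := by omega
    exact_mod_cast this
  have a1 := harmonic_le_one_add_log (2 * k)
  have a2 := log_add_one_le_harmonic (2 * k)
  have a3 := harmonic_le_one_add_log k
  have a4 := log_add_one_le_harmonic k
  have b1 : (2 * k : ℝ) ≤ x := by
    have : 2 * k ≤ x := by omega
    exact_mod_cast this
  have b2 : (x : ℝ) ≤ 2 * k + 1 := by
    have : x ≤ 2 * k + 1 := by omega
    exact_mod_cast this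
  push_cast at a1 a2 a3 a4
  have l2 : 0 < Real.log 2 := Real.log_pos (by norm_num)
  have l2' := Real.log_two_lt_d9
  have c1 : Real.log (2 * k) ≤ Real.log x := Real.log_le_log (by positivity) b1
  have c2 : Real.log x ≤ Real.log (2 * k + 1) := Real.log_le_log hx0 b2
  have c3 : Real.log (2 * k) = Real.log 2 + Real.log k := Real.log_mul (by norm_num) hk0.ne'
  have c4 : Real.log x ≤ Real.log 2 + Real.log (k + 1) := by
    rw [← Real.log_mul (by norm_num) (by positivity)]
    exact Real.log_le_log hx0 (by linarith)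
  rw [abs_le]
  constructor <;> linarith

lemma mass_sub_SO {c : ℝ} {q : ℕ → ℝ} (M : OModel c q) {ε : ℝ} (hε : 0 < ε) : ∃ K : ℝ, ∀ x : ℕ,
    |mass {n | Odd n} q x - 2 * c * SO x| ≤ K + ε * SO x := by
  classical
  obtain ⟨n0, hn0⟩ := eventually_atTop.1 (M.lim ε hε)
  refine ⟨∑ n ∈ range n0, |q n - 2 * c / n|, fun x => ?_⟩
  have e1 : mass {n | Odd n} q x - 2 * c * SO x = ∑ n ∈ ind {n | Odd n} x, (q n - 2 * c / n) := by
    unfold mass SO
    rw [Finset.sum_sub_distrib, Finset.mul_sum]
    congr 1
    exact Finset.sum_congr rfl fun n _ => by ring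
  rw [e1]
  refine (abs_sum_le_sum_abs _ _).trans ?_
  rw [← Finset.sum_filter_add_sum_filter_not (ind {n | Odd n} x) (fun n => n < n0)]
  refine add_le_add ?_ ?_
  · refine Finset.sum_le_sum_of_subset_of_nonneg ?_ fun _ _ _ => abs_nonneg _
    intro n hn
    exact mem_range.2 (mem_filter.1 hn).2
  · have e2 : ε * SO x = ∑ n ∈ ind {n | Odd n} x, ε / (n : ℝ) := by
      unfold SO
      rw [Finset.mul_sum]
      exact Finset.sum_congr rfl fun n _ => by ring
    rw [e2]
    refine (Finset.sum_le_sum (g := fun n : ℕ => ε / (n : ℝ)) ?_).trans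
      (Finset.sum_le_sum_of_subset_of_nonneg (filter_subset _ _) fun n _ _ => by positivity)
    intro n hn
    rw [mem_filter, mem_ind', not_lt] at hn
    have ho : Odd n := hn.1.2
    have hpos : (0 : ℝ) < n := by
      have := ho.pos
      exact_mod_cast this
    have h := hn0 n hn.2 ho
    rw [le_div_iff₀ hpos, ← abs_of_pos hpos, ← abs_mul, abs_of_pos hpos]
    have e3 : (q n - 2 * c / n) * n = n * q n - 2 * c := by
      field_simp
    rw [e3]
    exact h

lemma SO_nonneg (x : ℕ) : 0 ≤ SO x := Finset.sum_nonneg fun n _ => by positivity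

lemma omass_lim {c : ℝ} {q : ℕ → ℝ} (M : OModel c q) :
    Tendsto (fun x : ℕ => mass {n | Odd n} q x / Real.log x) atTop (𝓝 c) := by
  have hc := M.cpos
  rw [Metric.tendsto_atTop']
  intro ε hε
  obtain ⟨K, hK⟩ := mass_sub_SO M hε
  have hK0 : 0 ≤ K := by
    have := hK 0
    have h0 : SO 0 = 0 := by simp [SO, ind]
    rw [h0] at this
    linarith [abs_nonneg (mass {n | Odd n} q 0 - 2 * c * 0)]
  obtain ⟨N, hN⟩ := eventually_atTop.1 (log_tendsto.eventually_gt_atTop ((K + 4 * c + 2 * ε) * 4 / ε))
  refine ⟨N + 2, fun x hx => ?_⟩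
  have hx2 : 2 ≤ x := by omega
  have hl := hN x (by omega)
  have hl0 : 0 < Real.log x := lt_of_le_of_lt (by positivity) hl
  have h1 := hK x
  have h2 := SO_near hx2
  have h3 : |mass {n | Odd n} q x - c * Real.log x| ≤ K + ε * SO x + 4 * c := by
    have e : mass {n | Odd n} q x - c * Real.log x =
        (mass {n | Odd n} q x - 2 * c * SO x) + 2 * c * (SO x - Real.log x / 2) := by ring
    rw [e]
    refine (abs_add_le _ _).trans (add_le_add h1 ?_)
    rw [abs_mul, abs_of_pos (by positivity : (0:ℝ) < 2 * c)]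
    nlinarith
  have h4 : SO x ≤ Real.log x / 2 + 2 := by
    have := (abs_le.1 h2).2
    linarith
  rw [Real.dist_eq]
  have e : mass {n | Odd n} q x / Real.log x - c = (mass {n | Odd n} q x - c * Real.log x) / Real.log x := by
    field_simp
  rw [e, abs_div, abs_of_pos hl0, div_lt_iff₀ hl0]
  have h5 : (K + 4 * c + 2 * ε) * 4 < ε * Real.log x := by
    rw [div_lt_iff₀ hε] at hl
    linarith
  nlinarith

theorem odat {c : ℝ} {q : ℕ → ℝ} (M : OModel c q) : Dat {n | Odd n} q c where
  cpos := M.cpos
  lim := omass_lim M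
  rates :=
    { pos := M.pos
      lt_one := M.lt_one
      small := by
        intro ε hε
        have h1 : Tendsto (fun n : ℕ => (2 * c + 1) / (n : ℝ)) atTop (𝓝 0) := tendsto_const_div_atTop_nhds_zero_nat _
        filter_upwards [M.lim 1 one_pos, h1.eventually (gt_mem_nhds hε)] with n h2 h3 ho
        have hpos : (0 : ℝ) < n := by
          have := Odd.pos ho
          exact_mod_cast this
        refine lt_of_le_of_lt ?_ h3
        rw [le_div_iff₀ hpos]
        have := (abs_le.1 (h2 ho)).2
        linarith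
      div := by
        have h1 := (omass_lim M).pos_mul_atTop M.cpos log_tendsto
        refine h1.congr' ?_
        filter_upwards [eventually_ge_atTop 2] with x hx
        have hl : 0 < Real.log x := Real.log_pos (by exact_mod_cast hx)
        field_simp }

theorem oconv {c : ℝ} {q : ℕ → ℝ} (M : OModel c q) {d : ℕ → ℝ} (hd : ∀ n, 0 ≤ d n) :
    Conv {n | Odd n} q d ↔ Summable (fun n : ℕ => if Odd n then d n / (n * Real.log n ^ 2) else 0) := by
  classical
  have hc := M.cpos
  rw [conv_iff (odat M) jobs hd]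
  have key : ∀ᶠ n : ℕ in atTop, Odd n → q n * d n / Real.log n ^ 2 ≤ 3 * c * (d n / (n * Real.log n ^ 2)) ∧
      d n / (n * Real.log n ^ 2) ≤ 1 / c * (q n * d n / Real.log n ^ 2) := by
    filter_upwards [M.lim c hc, log_tendsto.eventually_gt_atTop 0] with n h1 h2 ho
    have hpos : (0 : ℝ) < n := by
      have := Odd.pos ho
      exact_mod_cast this
    have h3 := abs_le.1 (h1 ho)
    have h4 := hd n
    have h5 : q n ≤ 3 * c / n := by
      rw [le_div_iff₀ hpos]
      linarith [h3.2]
    have h6 : c / n ≤ q n := by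
      rw [div_le_iff₀ hpos]
      linarith [h3.1]
    constructor
    · have h7 : q n * d n / Real.log n ^ 2 ≤ 3 * c / n * d n / Real.log n ^ 2 := by gcongr
      refine h7.trans (le_of_eq ?_)
      field_simp
    · have h7 : 1 / c * (c / n * d n / Real.log n ^ 2) ≤ 1 / c * (q n * d n / Real.log n ^ 2) := by gcongr
      refine le_trans (le_of_eq ?_) h7
      field_simp
  constructor
  · intro h
    refine Summable.of_norm_bounded_eventually_nat (h.mul_left (1 / c)) ?_
    filter_upwards [key, log_tendsto.eventually_gt_atTop 0] with n h1 h2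
    by_cases hp : Odd n
    · have h3 := M.pos n hp
      have h4 := hd n
      have hp' : n ∈ {n : ℕ | Odd n} := hp
      simp only [if_pos hp, if_pos hp']
      rw [Real.norm_eq_abs, abs_of_nonneg (by positivity)]
      exact (h1 hp).2
    · have hp' : n ∉ {n : ℕ | Odd n} := hp
      simp only [if_neg hp, if_neg hp', norm_zero, mul_zero, le_refl]
  · intro h
    refine Summable.of_norm_bounded_eventually_nat (h.mul_left (3 * c)) ?_
    filter_upwards [key, log_tendsto.eventually_gt_atTop 0] with n h1 h2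
    by_cases hp : Odd n
    · have h3 := M.pos n hp
      have h4 := hd n
      have hp' : n ∈ {n : ℕ | Odd n} := hp
      simp only [if_pos hp, if_pos hp']
      rw [Real.norm_eq_abs, abs_of_nonneg (by positivity)]
      exact (h1 hp).1
    · have hp' : n ∉ {n : ℕ | Odd n} := hp
      simp only [if_neg hp, if_neg hp', norm_zero, mul_zero, le_refl]

end Pool.Agent.Q172.PP
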