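import Mathlib

/-!
# The admissible primes `64 b² + 9 = 8 d² + 1` and their indices
-/

set_option autoImplicit false

namespace Pool.Agent.Q172.PP

/-- `d_m`, where `d_m + b_m √8 = (3 + √8)^m`. -/
def dd : ℕ → ℤ
  | 0 => 1
  | 1 => 3
  | (m + 2) => 6 * dd (m + 1) - dd m

/-- the indices of the admissible primes -/
def T : Set ℕ := {m | ((8 * dd m ^ 2 + 1).toNat).Prime}

/-- the admissible primes -/
def admissible : Set ℕ := {p | p.Prime ∧ ∃ b d : ℤ, (p : ℤ) = 64 * b ^ 2 + 9 ∧ (p : ℤ) = 8 * d ^ 2 + 1}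

/-- the fundamental solution -/
def a₁ : Pell.Solution₁ 8 := Pell.Solution₁.mk 3 1 (by norm_num)

lemma a₁_fund : Pell.IsFundamental a₁ := by
  refine ⟨by simp [a₁], by simp [a₁], fun {b} hb => ?_⟩
  have h := b.prop
  simp only [a₁, Pell.Solution₁.x_mk]
  by_contra hlt
  push Not at hlt
  have h2 : b.x = 2 := by omega
  rw [h2] at h
  have h3 : b.y ^ 2 * 8 = 3 := by linarith
  omega

lemma pow_coords (m : ℕ) : (a₁ ^ m).x = dd m ∧ (a₁ ^ (m + 1)).x = dd (m + 1) ∧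
    3 * (a₁ ^ m).x + 8 * (a₁ ^ m).y = dd (m + 1) := by
  induction m with
  | zero => simp [a₁, dd]
  | succ m ih =>
    obtain ⟨h1, h2, h3⟩ := ih
    have hx : (a₁ ^ (m + 1)).x = (a₁ ^ m).x * 3 + 8 * ((a₁ ^ m).y * 1) := by
      rw [pow_succ, Pell.Solution₁.x_mul]
      simp [a₁]
    have hy : (a₁ ^ (m + 1)).y = (a₁ ^ m).x * 1 + (a₁ ^ m).y * 3 := by
      rw [pow_succ, Pell.Solution₁.y_mul]
      simp [a₁]
    have hx2 : (a₁ ^ (m + 1 + 1)).x = (a₁ ^ (m + 1)).x * 3 + 8 * ((a₁ ^ (m + 1)).y * 1) := by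
      rw [pow_succ, Pell.Solution₁.x_mul]
      simp [a₁]
    have e : dd (m + 1 + 1) = 6 * dd (m + 1) - dd m := rfl
    refine ⟨h2, ?_, ?_⟩
    · rw [hx2, hy, e]
      linarith
    · rw [hy, e]
      linarith

lemma dd_pell (m : ℕ) : ∃ b : ℤ, dd m ^ 2 - 8 * b ^ 2 = 1 :=
  ⟨(a₁ ^ m).y, by
    have := (a₁ ^ m).prop
    rw [(pow_coords m).1] at this
    exact this⟩

lemma dd_of_pell {b d : ℤ} (h : d ^ 2 - 8 * b ^ 2 = 1) : ∃ m : ℕ, d ^ 2 = dd m ^ 2 := by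
  have hd : d ≠ 0 := by
    rintro rfl
    omega
  have h' : |d| ^ 2 - 8 * |b| ^ 2 = 1 := by rw [sq_abs, sq_abs]; exact h
  obtain ⟨n, hn⟩ := a₁_fund.eq_pow_of_nonneg (a := Pell.Solution₁.mk |d| |b| h')
    (by simpa using hd) (by simp)
  refine ⟨n, ?_⟩
  rw [← (pow_coords n).1, ← hn, Pell.Solution₁.x_mk, sq_abs]

lemma dd_mono (m : ℕ) : 0 < dd m ∧ dd m < dd (m + 1) := by
  induction m with
  | zero => simp [dd]
  | succ m ih =>
    have e : dd (m + 1 + 1) = 6 * dd (m + 1) - dd m := rfl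
    constructor
    · linarith
    · rw [e]
      linarith

lemma dd_strictMono : StrictMono dd := strictMono_nat_of_lt_succ fun m => (dd_mono m).2

lemma dd_three (k : ℕ) : (3 : ℤ) ∣ dd (2 * k) ^ 2 - 1 ∧ (3 : ℤ) ∣ dd (2 * k + 1) := by
  induction k with
  | zero => simp [dd]
  | succ k ih =>
    obtain ⟨⟨u, hu⟩, ⟨v, hv⟩⟩ := ih
    have e1 : dd (2 * (k + 1)) = 6 * dd (2 * k + 1) - dd (2 * k) := rfl
    have e2 : dd (2 * (k + 1) + 1) = 6 * dd (2 * (k + 1)) - dd (2 * k + 1) := rfl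
    constructor
    · rw [e1]
      refine ⟨12 * dd (2 * k + 1) ^ 2 - 4 * dd (2 * k + 1) * dd (2 * k) + u, ?_⟩
      linear_combination hu
    · rw [e2, hv]
      exact ⟨2 * dd (2 * (k + 1)) - v, by ring⟩

theorem T_odd {m : ℕ} (hm : m ∈ T) : Odd m := by
  by_contra h
  rw [Nat.not_odd_iff_even] at h
  obtain ⟨k, hk⟩ := h
  have hk' : m = 2 * k := by omega
  subst hk'
  have hp : ((8 * dd (2 * k) ^ 2 + 1).toNat).Prime := hm
  obtain ⟨u, hu⟩ := (dd_three k).1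
  have h0 := (dd_mono (2 * k)).1
  have hpos : 0 ≤ 8 * dd (2 * k) ^ 2 + 1 := by positivity
  have h3 : (3 : ℕ) ∣ (8 * dd (2 * k) ^ 2 + 1).toNat := by
    have : ((3 : ℕ) : ℤ) ∣ ((8 * dd (2 * k) ^ 2 + 1).toNat : ℤ) := by
      rw [Int.toNat_of_nonneg hpos]
      exact ⟨8 * u + 3, by push_cast; linear_combination 8 * hu⟩
    exact_mod_cast this
  have h4 := (Nat.prime_dvd_prime_iff_eq Nat.prime_three hp).1 h3
  have h5 : (8 * dd (2 * k) ^ 2 + 1) = 3 := by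
    rw [← Int.toNat_of_nonneg hpos, ← h4]
    rfl
  nlinarith

theorem T_bij : Set.BijOn (fun m => (8 * dd m ^ 2 + 1).toNat) T admissible := by
  refine ⟨fun m hm => ⟨hm, ?_⟩, ?_, ?_⟩
  · obtain ⟨b, hb⟩ := dd_pell m
    have hpos : 0 ≤ 8 * dd m ^ 2 + 1 := by positivity
    refine ⟨b, dd m, ?_, ?_⟩
    · show (((8 * dd m ^ 2 + 1).toNat : ℕ) : ℤ) = _
      rw [Int.toNat_of_nonneg hpos]
      linear_combination 8 * hb
    · show (((8 * dd m ^ 2 + 1).toNat : ℕ) : ℤ) = _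
      rw [Int.toNat_of_nonneg hpos]
  · intro m _ m' _ h
    have hpos : ∀ m, 0 ≤ 8 * dd m ^ 2 + 1 := fun m => by positivity
    have h1 : (8 * dd m ^ 2 + 1) = 8 * dd m' ^ 2 + 1 := by
      rw [← Int.toNat_of_nonneg (hpos m), ← Int.toNat_of_nonneg (hpos m')]
      exact congrArg _ h
    have h2 : dd m ^ 2 = dd m' ^ 2 := by linarith
    have h3 : dd m = dd m' := (sq_eq_sq₀ (dd_mono m).1.le (dd_mono m').1.le).1 h2
    exact dd_strictMono.injective h3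
  · rintro p ⟨hp, b, d, h1, h2⟩
    obtain ⟨m, hm⟩ := dd_of_pell (b := b) (d := d) (by linarith)
    have e : (8 * dd m ^ 2 + 1).toNat = p := by
      rw [← hm, ← h2]
      rfl
    refine ⟨m, ?_, e⟩
    show ((8 * dd m ^ 2 + 1).toNat).Prime
    rw [e]
    exact hp

end Pool.Agent.Q172.PP
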